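import Pool.Agent.H11.CV.Targets

/-!
# CI: slices over sub-blocks form a family of degree `d - 1` (helper11)
-/

set_option autoImplicit false

open Finset Polynomial

namespace Pool.Agent.H11.CV

theorem ci_inv (p m : ℕ) (hp : p.Prime) (x : ℕ) (hx : ¬ p ∣ x) :
    ∃ y : ℤ, (p : ℤ) ^ m ∣ (x : ℤ) * y - 1 := by
  have h : IsCoprime ((p : ℤ) ^ m) (x : ℤ) := by
    apply IsCoprime.pow_left
    rw [Nat.isCoprime_iff_coprime]
    exact (Nat.Prime.coprime_iff_not_dvd hp).mpr hx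
  obtain ⟨u, v, huv⟩ := h
  refine ⟨v, ⟨-u, ?_⟩⟩
  linear_combination huv

theorem ci (hEX : T_EX) (hDL : T_DL) (hSL : T_SL) (hPQ : T_PQ) (hRS : T_RS) : T_CI := by
  intro p d m a b s r G _ τ F J hp hdp hd hb hsa hm hr hF hJ
  obtain ⟨-, -, ex3, -, -, -, -⟩ := hEX
  have hp1 : 1 < p := hp.one_lt
  have hp0 : 0 < p := hp.pos
  set c := (d - 1) * b with hc
  have hbc : b ≤ c := by
    rw [hc]; exact Nat.le_mul_of_pos_left b (by omega)
  have hsb : s + b ≤ a := by omega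
  have hda : d * a ≤ m := le_trans (Nat.mul_le_mul_left d (Nat.le_succ a)) hm
  have hac : a + c ≤ m := by
    have : 2 * a ≤ d * a := Nat.mul_le_mul_right a hd
    omega
  have ha1 : a + 1 ≤ m := by
    have : 1 * (a + 1) ≤ d * (a + 1) := Nat.mul_le_mul_right _ (by omega)
    omega
  obtain ⟨r', hr'⟩ := ci_inv p m hp r hr
  have hw0 : ∀ j : ℕ, ∃ y : ℤ, 1 ≤ j → j ≤ d → (p : ℤ) ^ m ∣ (j : ℤ) * y - 1 := by
    intro j
    by_cases hj : 1 ≤ j ∧ j ≤ d
    · have : ¬ p ∣ j := by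
        intro h
        have := Nat.le_of_dvd (by omega) h
        omega
      obtain ⟨y, hy⟩ := ci_inv p m hp j this
      exact ⟨y, fun _ _ => hy⟩
    · exact ⟨0, fun h1 h2 => absurd ⟨h1, h2⟩ hj⟩
  choose w hw using hw0
  refine ⟨τ.comp (plf p d m (a + c) s (J : ℤ) r' w), ?_⟩
  intro ζ hζ Q hQ hconst g
  obtain ⟨hdeg, hcong⟩ := hPQ p d m a c s (J : ℤ) r' w hp1 hd hsa hda hw Q hQ
  set P := plf p d m (a + c) s (J : ℤ) r' w Q with hP
  have hτP : (τ.comp (plf p d m (a + c) s (J : ℤ) r' w)) Q = τ P := rfl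
  rw [hτP]
  unfold cs
  rw [Finset.mul_sum]
  refine Finset.sum_congr rfl ?_
  intro z hz
  have hz' : z < p ^ (a - (s + b)) := Finset.mem_range.mp hz
  set I := J + p ^ s * ζ + p ^ (s + b) * z with hI
  have hIa : I < p ^ a := by
    have h1 := (hRS p s b hp1).2.1 J ζ hJ hζ
    have h2 := (hRS p (s + b) (a - (s + b)) hp1).2.1 (J + p ^ s * ζ) z h1 hz'
    rwa [Nat.add_sub_cancel' hsb] at h2
  have hFi : ∀ i : ℕ, i < p → Cls p d m τ (a + 1) ((I + p ^ a * i : ℕ) : ℤ) (F (I + p ^ a * i)) := by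
    intro i hi
    apply hF
    have := (hRS p a 1 hp1).2.1 I i hIa (by simpa using hi)
    exact this
  obtain ⟨dl1, dl2, -⟩ := hDL p d m a G τ F I hp1 (by omega) ha1 hFi
  set zz : ℤ := (ζ : ℤ) + (p : ℤ) ^ b * (z : ℤ) with hzz
  have hIz : (I : ℤ) = (J : ℤ) + (p : ℤ) ^ s * zz := by
    rw [hI, hzz]; push_cast; ring
  set c₀ : ℤ := r' * (p : ℤ) ^ (m - (a + c)) * Q.eval zz with hc₀
  have key : ∀ g' : G, dlt p a F I (g' + τ P) = dlt p a F I (g' + τ (C c₀ * X)) := by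
    apply dl1 P c₀ hdeg
    intro y
    have := hcong zz y
    rw [← hIz] at this
    exact this
  set v := vv p m (a + c) τ with hv
  have hmul : τ (C c₀ * X) = (r' * Q.eval zz) • v := by
    rw [hv, vv, ← map_zsmul]
    congr 1
    rw [hc₀, zsmul_eq_mul]
    simp only [map_mul, map_pow]
    push_cast
    ring_nf
    simp only [eq_intCast, Int.cast_mul, map_mul, map_pow]
    try ring
  have hper : ∀ g', dlt p a F I (g' + (p ^ c) • v) = dlt p a F I g' := by
    intro g'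
    have h1 : (p ^ c) • v = τ (C ((p : ℤ) ^ (m - a)) * X) := by
      rw [hv, vv, ← map_nsmul]
      congr 1
      rw [nsmul_eq_mul]
      have : (p : ℤ) ^ (m - a) = (p : ℤ) ^ c * (p : ℤ) ^ (m - (a + c)) := by
        rw [← pow_add]; congr 1; omega
      rw [this]
      simp only [map_mul, map_pow, Nat.cast_pow]
      rw [mul_assoc]
      congr 1
    rw [h1]
    exact dl2 g'
  have hMpos : 0 < p ^ c := pow_pos hp0 c
  obtain ⟨-, -, sl⟩ := hSL (p ^ c) G v hMpos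
  obtain ⟨-, sl4⟩ := sl (dlt p a F I) hper
  have h1 : slc (p ^ c) v r (dlt p a F I) (g + τ P) =
      slc (p ^ c) v r (dlt p a F I) (g + (r' * Q.eval zz) • v) := by
    unfold slc
    congr 1
    refine Finset.sum_congr rfl ?_
    intro t _
    congr 1
    have e1 : g + τ P + t • v = (g + t • v) + τ P := by abel
    have e2 : g + (r' * Q.eval zz) • v + t • v = (g + t • v) + (r' * Q.eval zz) • v := by abel
    rw [e1, e2, key, hmul]
  rw [h1, sl4]
  congr 1
  apply ex3 (p ^ c) _ _ hMpos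
  have hcm : (p : ℤ) ^ c ∣ (p : ℤ) ^ m := pow_dvd_pow _ (by omega)
  have h2 : (p : ℤ) ^ c ∣ Q.eval zz - Q.eval (ζ : ℤ) := by
    have h3 := hconst zz (by rw [hzz]; exact ⟨(z : ℤ), by ring⟩)
    exact h3
  have h4 : (r : ℤ) * (r' * Q.eval zz) - Q.eval (ζ : ℤ) =
      ((r : ℤ) * r' - 1) * Q.eval zz + (Q.eval zz - Q.eval (ζ : ℤ)) := by ring
  push_cast
  rw [h4]
  exact dvd_add (Dvd.dvd.mul_right (hcm.trans hr') _) h2

end Pool.Agent.H11.CV
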