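import Mathlib

/-!
# Vinogradov mean values at the critical exponent: definitions (helper11)
-/

set_option autoImplicit false

open Finset Polynomial

namespace Pool.Agent.H11.CV

/-- `ee M a = exp (2 π i a / M)` -/
noncomputable def ee (M : ℕ) (a : ℤ) : ℂ :=
  Complex.exp (2 * Real.pi * Complex.I * ((a : ℂ) / (M : ℂ)))

/-- the critical exponent `d (d + 1) / 2` -/
def KK (d : ℕ) : ℕ := d * (d + 1) / 2

/-- `cut lam z` is `z` if `‖z‖ ≤ lam` and `0` otherwise -/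
noncomputable def cut (lam : ℝ) (z : ℂ) : ℂ := if ‖z‖ ≤ lam then z else 0

/-- `Q ↦ p^{d a} Q((X - ξ) / p^a)` for `deg Q ≤ d` -/
noncomputable def lft (p d a : ℕ) (ξ : ℤ) : ℤ[X] →+ ℤ[X] where
  toFun Q := ∑ j ∈ range (d + 1), C (Q.coeff j * (p : ℤ) ^ ((d - j) * a)) * (X - C ξ) ^ j
  map_zero' := by simp
  map_add' := by
    intro P Q
    simp only [coeff_add, add_mul, map_add, Finset.sum_add_distrib]

/-- the polynomial `P_Q` of degree `≤ d` attached to a polynomial `Q` of degree `≤ d - 1` -/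
noncomputable def plf (p d m e s : ℕ) (ξ r' : ℤ) (w : ℕ → ℤ) : ℤ[X] →+ ℤ[X] where
  toFun Q := ∑ j ∈ range d, C (Q.coeff j * (r' * w (j + 1) * (p : ℤ) ^ (m - e - j * s))) *
    (X - C ξ) ^ (j + 1)
  map_zero' := by simp
  map_add' := by
    intro P Q
    simp only [coeff_add, add_mul, map_add, Finset.sum_add_distrib]

section
variable {G : Type} [AddCommGroup G]

/-- the class `C(a, ξ)` of degree `d` and modulus `p^m`: polynomials of degree `≤ d` which are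
constant modulo `p^m` on the residue class of `ξ` modulo `p^a` act by their phase -/
def Cls (p d m : ℕ) (τ : ℤ[X] →+ G) (a : ℕ) (ξ : ℤ) (u : G → ℂ) : Prop :=
  ∀ P : ℤ[X], P.natDegree ≤ d →
    (∀ y : ℤ, (p : ℤ) ^ a ∣ y - ξ → (p : ℤ) ^ m ∣ P.eval y - P.eval ξ) →
      ∀ g : G, u (g + τ P) = ee (p ^ m) (P.eval ξ) * u g

/-- off-diagonal part `∑_{i ≠ i'} F_i conj F_{i'}` over the children `ξ + p^a i` of the block `ξ`
of level `a` -/
noncomputable def dlt (p a : ℕ) (F : ℕ → G → ℂ) (ξ : ℕ) (g : G) : ℂ :=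
  ∑ i ∈ range p, ∑ i' ∈ (range p).filter (fun i' => i' ≠ i),
    F (ξ + p ^ a * i) g * (starRingEnd ℂ) (F (ξ + p ^ a * i') g)

/-- the `r`-th slice (Fourier component) of `h` along the direction `v` of period `M` -/
noncomputable def slc (M : ℕ) (v : G) (r : ℕ) (h : G → ℂ) (g : G) : ℂ :=
  (M : ℂ)⁻¹ * ∑ t ∈ range M, ee M (-((r : ℤ) * (t : ℤ))) * h (g + t • v)

/-- the direction of the slices -/
noncomputable def vv (p m e : ℕ) (τ : ℤ[X] →+ G) : G := τ (C ((p : ℤ) ^ (m - e)) * X)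

/-- sum of the slices of the off-diagonal parts over the blocks of level `a` in the block `J` of
level `t` -/
noncomputable def cs (p m a c : ℕ) (τ : ℤ[X] →+ G) (F : ℕ → G → ℂ) (r t J : ℕ) (g : G) : ℂ :=
  ∑ z ∈ range (p ^ (a - t)), slc (p ^ c) (vv p m (a + c) τ) r (dlt p a F (J + p ^ t * z)) g

/-- `pr j ξ`: sum of the pruned functions of the children, for the block `ξ < p^(n-j)` of height
`j` (level `n - j`) -/
noncomputable def pr (p n : ℕ) (lam : ℝ) (f : ℕ → G → ℂ) : ℕ → ℕ → G → ℂ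
  | 0 => f
  | j + 1 => fun ξ g => ∑ i ∈ range p, cut lam (pr p n lam f j (ξ + p ^ (n - (j + 1)) * i) g)

/-- the pruned function of the block `ξ` of height `j` -/
noncomputable def pt (p n : ℕ) (lam : ℝ) (f : ℕ → G → ℂ) (j ξ : ℕ) (g : G) : ℂ :=
  cut lam (pr p n lam f j ξ g)

/-- block sum without pruning, block `ξ < p^(n-j)` of height `j` -/
noncomputable def blk (p n : ℕ) (f : ℕ → G → ℂ) (j ξ : ℕ) (g : G) : ℂ :=
  ∑ z ∈ range (p ^ j), f (ξ + p ^ (n - j) * z) g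

/-- square function of height `j` -/
noncomputable def sq (p n : ℕ) (lam : ℝ) (f : ℕ → G → ℂ) (j : ℕ) (g : G) : ℝ :=
  ∑ ξ ∈ range (p ^ (n - j)), ‖pr p n lam f j ξ g‖ ^ 2

/-- threshold of height `j` -/
noncomputable def cc (p n j : ℕ) : ℝ := (p : ℝ) ^ n * (1 + 1 / (n : ℝ)) ^ j

/-- the set where the square function grows at height `j` for the first time -/
def Om (p n : ℕ) (lam : ℝ) (f : ℕ → G → ℂ) (j : ℕ) : Set G :=
  {g | cc p n j < sq p n lam f j g ∧ ∀ i : ℕ, 1 ≤ i → i < j → sq p n lam f i g ≤ cc p n i}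

/-- sum of a family of level `n` over the class `c` modulo `p` -/
noncomputable def clsum (p n : ℕ) (F : ℕ → G → ℂ) (c : ℕ) (g : G) : ℂ :=
  ∑ x ∈ (range (p ^ n)).filter (fun x => x % p = c), F x g

/-- a family of degree `d`, length `n`, modulus `p^(d n)` -/
def Fam (p d n : ℕ) (τ : ℤ[X] →+ G) (f : ℕ → G → ℂ) : Prop :=
  ∀ x : ℕ, x < p ^ n → Cls p d (d * n) τ n (x : ℤ) (f x)

/-- a family bounded by one -/
def Bd (p n : ℕ) (f : ℕ → G → ℂ) : Prop := ∀ x : ℕ, x < p ^ n → ∀ g : G, ‖f x g‖ ≤ 1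

variable [Fintype G]

/-- energy of a family -/
noncomputable def En (p n : ℕ) (f : ℕ → G → ℂ) : ℝ :=
  ∑ x ∈ range (p ^ n), ∑ g, ‖f x g‖ ^ 2

open Classical in
/-- number of `g` in a set -/
noncomputable def cnt (S : Set G) : ℝ := ((univ.filter (fun g => g ∈ S)).card : ℝ)

end

/-- decoupling at the critical exponent, degree `d`, scale `p^n` -/
def Flat (p d n : ℕ) (D : ℝ) : Prop :=
  ∀ (G : Type) [AddCommGroup G] [Fintype G] (τ : ℤ[X] →+ G) (u : ℕ → G → ℂ), Fam p d n τ u →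
    ∑ g, ‖∑ x ∈ range (p ^ n), u x g‖ ^ (2 * KK d) ≤
      D * (p : ℝ) ^ (n * (KK d - 1)) * ∑ x ∈ range (p ^ n), ∑ g, ‖u x g‖ ^ (2 * KK d)

/-- level set estimate at the critical exponent, degree `d`, scale `p^n` -/
def Lev (p d n : ℕ) (D : ℝ) : Prop :=
  ∀ (G : Type) [AddCommGroup G] [Fintype G] (τ : ℤ[X] →+ G) (f : ℕ → G → ℂ), Fam p d n τ f →
    Bd p n f → ∀ α : ℝ, 0 < α →
      cnt {g : G | α ≤ ‖∑ x ∈ range (p ^ n), f x g‖} * α ^ (2 * KK d) ≤
        D * (p : ℝ) ^ (n * (KK d - 1)) * En p n f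

/-- the exponent `θ = (KK (d-1) - 1) / (KK d - 1)` -/
noncomputable def th (d : ℕ) : ℝ := ((KK (d - 1) : ℝ) - 1) / ((KK d : ℝ) - 1)

/-- the pairs `(x, y)` of `s`-tuples in `[1, N]` with equal power sums of degree `1, …, k`;
their number is `J_{s,k}(N)` -/
def sols (s k N : ℕ) : Finset ((Fin s → ℕ) × (Fin s → ℕ)) :=
  ((Fintype.piFinset fun _ : Fin s => Finset.Icc 1 N) ×ˢ
    (Fintype.piFinset fun _ : Fin s => Finset.Icc 1 N)).filter
    (fun p => ∀ j : Fin k, ∑ i, p.1 i ^ (j.val + 1) = ∑ i, p.2 i ^ (j.val + 1))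

end Pool.Agent.H11.CV
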