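import Pool.Agent.H11.CV.KKL

/-!
# OB: the bound for `Om` (helper11)
-/

set_option autoImplicit false

open Finset Polynomial

namespace Pool.Agent.H11.CV

theorem ob (hO2 : T_O2) (hOP : T_OP) (hB2 : T_B2) (hPB : T_PB) (hSQ : T_SQ) : T_OB := by
  intro p d hp hdp hd
  have hp1 : 1 < p := hp.one_lt
  have hpR : (1 : ℝ) < p := by exact_mod_cast hp1
  have hp0 : (0 : ℝ) < p := by linarith
  set κ := KK (d - 1) with hκ
  have hκ1 : 1 ≤ κ := KK_pos (d - 1) (by omega)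
  -- the constant of bound 2
  obtain ⟨C1, hC1, hC1'⟩ : ∃ C1 : ℝ, 1 ≤ C1 ∧ (3 ≤ d → ∀ (n j : ℕ) (D lam : ℝ) (G : Type)
      [AddCommGroup G] [Fintype G] (τ : ℤ[X] →+ G) (f : ℕ → G → ℂ), 1 ≤ D → 1 ≤ lam → j ≤ n →
      (∀ i : ℕ, i ≤ j → Lev p d i D) → Fam p d n τ f → Bd p n f →
      ∑ ξ ∈ range (p ^ (n - j)), ∑ g, ‖pt p n lam f j ξ g‖ ^ (2 * (2 * κ)) ≤
        C1 * ((n : ℝ) + 1) * D * (p : ℝ) ^ (j * (KK d - 1)) * lam ^ (2 * (2 * κ) - 2 * KK d) *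
          En p n f) := by
    by_cases h3 : 3 ≤ d
    · obtain ⟨C1, h1, h2⟩ := hB2 p d (2 * κ) hp1 (by omega) (KK_le_two d h3)
      exact ⟨C1, h1, fun _ => h2⟩
    · exact ⟨1, le_refl _, fun h => absurd h h3⟩
  set C : ℕ := max ⌈(p : ℝ) ^ (4 * κ) * C1⌉₊ (max (2 * κ + 1) (3 * (d - 1) * κ)) with hC
  have hCa : (p : ℝ) ^ (4 * κ) * C1 ≤ C :=
    le_trans (Nat.le_ceil _) (Nat.cast_le.mpr (le_max_left _ _))
  have hCb : 2 * κ + 1 ≤ C := le_trans (le_max_left _ _) (le_max_right _ _)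
  have hCc : 3 * (d - 1) * κ ≤ C := le_trans (le_max_right _ _) (le_max_right _ _)
  refine ⟨C, by omega, ?_⟩
  intro n j b D Dst lam G _ _ τ f hj hjn hb hD hDst hlam hFlat hLev hFam hBd
  have hlam0 : 0 < lam := by linarith
  obtain ⟨-, -, pb3⟩ := hPB p d n lam G τ f hp1 (by omega) hFam
  have hEn0 : 0 ≤ En p n f := by
    unfold En
    exact Finset.sum_nonneg fun _ _ => Finset.sum_nonneg fun _ _ => by positivity
  set S := ∑ ξ ∈ range (p ^ (n - (j - 1))), ∑ g, ‖pt p n lam f (j - 1) ξ g‖ ^ (2 * (2 * κ))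
    with hS
  have hS0 : 0 ≤ S := Finset.sum_nonneg fun _ _ => Finset.sum_nonneg fun _ _ => by positivity
  have hb1 : S ≤ lam ^ (4 * κ - 2) * En p n f := by
    calc S ≤ ∑ ξ ∈ range (p ^ (n - (j - 1))), ∑ g,
          lam ^ (4 * κ - 2) * ‖pt p n lam f (j - 1) ξ g‖ ^ 2 := by
          refine Finset.sum_le_sum fun ξ _ => Finset.sum_le_sum fun g _ => ?_
          have h1 : 2 * (2 * κ) = (4 * κ - 2) + 2 := by omega
          rw [h1, pow_add]
          refine mul_le_mul_of_nonneg_right ?_ (by positivity)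
          exact pow_le_pow_left₀ (norm_nonneg _)
            ((hSQ p n lam G f g hp1).2.2.2.1 hlam0.le (j - 1) ξ) _
      _ = lam ^ (4 * κ - 2) *
          ∑ ξ ∈ range (p ^ (n - (j - 1))), ∑ g, ‖pt p n lam f (j - 1) ξ g‖ ^ 2 := by
          rw [Finset.mul_sum]
          refine Finset.sum_congr rfl fun ξ _ => ?_
          rw [Finset.mul_sum]
      _ ≤ lam ^ (4 * κ - 2) * En p n f :=
          mul_le_mul_of_nonneg_left (pb3 (j - 1) (by omega)) (by positivity)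
  set X : ℝ := (p : ℝ) ^ n with hX
  set N : ℝ := (p : ℝ) ^ (n - j) with hN
  have hX0 : 0 < X := by positivity
  have hN0 : 0 < N := by positivity
  have hn1 : (1 : ℝ) ≤ n := by exact_mod_cast (by omega : 1 ≤ n)
  set Dt : ℝ := C1 * ((n : ℝ) + 1) * Dst with hDt
  have hC1n : 1 ≤ C1 * ((n : ℝ) + 1) := by nlinarith
  have hDt1 : 1 ≤ Dt := by
    rw [hDt]; nlinarith
  have hb2 : 3 ≤ d → S ≤ Dt * (X / N) ^ (KK d - 1) * lam ^ (4 * κ - 2 * KK d) * En p n f := by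
    intro h3
    have h := hC1' h3 n (j - 1) Dst lam G τ f hDst hlam (by omega)
      (fun i hi => hLev i (by omega)) hFam hBd
    refine le_trans h ?_
    have hXN : X / N = (p : ℝ) ^ j := by
      rw [hX, hN, div_eq_iff (by positivity), ← pow_add]
      congr 1; omega
    have h4 : 2 * (2 * κ) - 2 * KK d = 4 * κ - 2 * KK d := by omega
    rw [hXN, h4, hDt]
    have h5 : (p : ℝ) ^ ((j - 1) * (KK d - 1)) ≤ ((p : ℝ) ^ j) ^ (KK d - 1) := by
      rw [← pow_mul]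
      exact pow_le_pow_right₀ hpR.le (Nat.mul_le_mul_right _ (by omega))
    have h6 : 0 ≤ C1 * ((n : ℝ) + 1) * Dst := by positivity
    gcongr
  have hop := hOP d X N lam Dt S (En p n f) hd hX0 hN0 hlam0 hDt1 hEn0 hS0 hb1 hb2
  have hth0 := th_nonneg d hd
  have hth1 := th_lt_one d hd
  have hDtth : Dt ^ (th d) ≤ C1 * ((n : ℝ) + 1) * Dst ^ (th d) := by
    rw [hDt, Real.mul_rpow (by linarith) (by linarith)]
    refine mul_le_mul_of_nonneg_right ?_ (by positivity)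
    calc (C1 * ((n : ℝ) + 1)) ^ (th d) ≤ (C1 * ((n : ℝ) + 1)) ^ (1 : ℝ) :=
          Real.rpow_le_rpow_of_exponent_le hC1n hth1.le
      _ = _ := Real.rpow_one _
  have ho2 := hO2 p d n j b D lam G τ f hp hdp hd hj (by omega) hb hD hFlat hFam hBd
  rw [← hκ, ← hX] at ho2
  set A : ℝ := (p : ℝ) ^ (3 * (d - 1) * b * κ) * D ^ (n / b + 1) with hA
  have hA0 : 0 ≤ A := by positivity
  have hNk : (p : ℝ) ^ ((n - j) * (κ - 1)) = N ^ (κ - 1) := by rw [hN, ← pow_mul]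
  have hmain : cnt (Om p n lam f j) * (X / n) ^ (2 * κ) ≤
      A * (p : ℝ) ^ (4 * κ) * (C1 * ((n : ℝ) + 1) * Dst ^ (th d) * lam ^ (2 * κ) *
        X ^ (κ - 1) * En p n f) := by
    calc cnt (Om p n lam f j) * (X / n) ^ (2 * κ) ≤
          A * (p : ℝ) ^ ((n - j) * (κ - 1)) * (p : ℝ) ^ (4 * κ) * S := ho2
      _ = A * (p : ℝ) ^ (4 * κ) * (N ^ (κ - 1) * S) := by rw [hNk]; ring
      _ ≤ A * (p : ℝ) ^ (4 * κ) * (Dt ^ (th d) * lam ^ (2 * κ) * X ^ (κ - 1) * En p n f) :=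
          mul_le_mul_of_nonneg_left hop (by positivity)
      _ ≤ _ := by gcongr
  have hcnt0 : 0 ≤ cnt (Om p n lam f j) := by unfold cnt; positivity
  -- remove `X ^ (κ - 1)`
  have hstep : cnt (Om p n lam f j) * X ^ (κ + 1) ≤
      (n : ℝ) ^ (2 * κ) * (A * (p : ℝ) ^ (4 * κ) *
        (C1 * ((n : ℝ) + 1) * Dst ^ (th d) * lam ^ (2 * κ) * En p n f)) := by
    have hXk : 0 < X ^ (κ - 1) := by positivity
    have hnk : 0 < (n : ℝ) ^ (2 * κ) := by positivity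
    have h1 : cnt (Om p n lam f j) * X ^ (κ + 1) * X ^ (κ - 1) =
        (n : ℝ) ^ (2 * κ) * (cnt (Om p n lam f j) * (X / n) ^ (2 * κ)) := by
      rw [div_pow, mul_assoc, ← pow_add]
      have : κ + 1 + (κ - 1) = 2 * κ := by omega
      rw [this]
      field_simp
    have h2 : cnt (Om p n lam f j) * X ^ (κ + 1) * X ^ (κ - 1) ≤
        (n : ℝ) ^ (2 * κ) * (A * (p : ℝ) ^ (4 * κ) *
        (C1 * ((n : ℝ) + 1) * Dst ^ (th d) * lam ^ (2 * κ) * En p n f)) * X ^ (κ - 1) := by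
      rw [h1]
      calc _ ≤ (n : ℝ) ^ (2 * κ) * (A * (p : ℝ) ^ (4 * κ) *
            (C1 * ((n : ℝ) + 1) * Dst ^ (th d) * lam ^ (2 * κ) * X ^ (κ - 1) * En p n f)) :=
            mul_le_mul_of_nonneg_left hmain hnk.le
        _ = _ := by ring
    exact le_of_mul_le_mul_right h2 hXk
  refine le_trans hstep ?_
  have e1 : (n : ℝ) ^ (2 * κ) * ((n : ℝ) + 1) ≤ ((n : ℝ) + 1) ^ C := by
    calc (n : ℝ) ^ (2 * κ) * ((n : ℝ) + 1) ≤ ((n : ℝ) + 1) ^ (2 * κ) * ((n : ℝ) + 1) := by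
          gcongr; linarith
      _ = ((n : ℝ) + 1) ^ (2 * κ + 1) := by rw [pow_succ]
      _ ≤ ((n : ℝ) + 1) ^ C := pow_le_pow_right₀ (by linarith) hCb
  have e2 : (p : ℝ) ^ (3 * (d - 1) * b * κ) ≤ (p : ℝ) ^ (C * b) := by
    apply pow_le_pow_right₀ hpR.le
    calc 3 * (d - 1) * b * κ = 3 * (d - 1) * κ * b := by ring
      _ ≤ C * b := Nat.mul_le_mul_right b hCc
  have hDn : 0 ≤ D ^ (n / b + 1) := by positivity
  have hDs : 0 ≤ Dst ^ (th d) := by positivity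
  calc (n : ℝ) ^ (2 * κ) * (A * (p : ℝ) ^ (4 * κ) *
        (C1 * ((n : ℝ) + 1) * Dst ^ (th d) * lam ^ (2 * κ) * En p n f)) =
        ((p : ℝ) ^ (4 * κ) * C1) * ((n : ℝ) ^ (2 * κ) * ((n : ℝ) + 1)) *
          (p : ℝ) ^ (3 * (d - 1) * b * κ) * D ^ (n / b + 1) * Dst ^ (th d) *
          lam ^ (2 * κ) * En p n f := by rw [hA]; ring
    _ ≤ (C : ℝ) * ((n : ℝ) + 1) ^ C * (p : ℝ) ^ (C * b) * D ^ (n / b + 1) * Dst ^ (th d) *
          lam ^ (2 * κ) * En p n f := by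
        have hC0 : (0 : ℝ) ≤ C := by positivity
        have hn0 : (0 : ℝ) ≤ (n : ℝ) ^ (2 * κ) * ((n : ℝ) + 1) := by positivity
        gcongr

end Pool.Agent.H11.CV
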