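import Pool.Agent.H11.CV.Defs

/-!
# Vinogradov mean values at the critical exponent: targets (helper11)

Every `T_X` is a proposition to be proved in a module of its own. See `Defs.lean`.
-/

set_option autoImplicit false

open Finset Polynomial

namespace Pool.Agent.H11.CV

/-- EX: properties of `ee`. -/
def T_EX : Prop :=
  (∀ (M : ℕ) (a : ℤ), ‖ee M a‖ = 1) ∧
  (∀ (M : ℕ) (a b : ℤ), ee M (a + b) = ee M a * ee M b) ∧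
  (∀ (M : ℕ) (a b : ℤ), 0 < M → (M : ℤ) ∣ a - b → ee M a = ee M b) ∧
  (∀ (M : ℕ) (a : ℤ), 0 < M → ee M a = 1 → (M : ℤ) ∣ a) ∧
  (∀ (M : ℕ) (a : ℤ), (starRingEnd ℂ) (ee M a) = ee M (-a)) ∧
  (∀ (M N : ℕ) (a : ℤ), 0 < N → ee (M * N) ((N : ℤ) * a) = ee M a) ∧
  (∀ (M : ℕ) (a : ℤ), 0 < M →
    ∑ t ∈ range M, ee M (a * (t : ℤ)) = if (M : ℤ) ∣ a then (M : ℂ) else 0)

/-- CB: basic properties of the classes. -/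
def T_CB : Prop :=
  ∀ (p d m : ℕ) (G : Type) [AddCommGroup G] (τ : ℤ[X] →+ G), 1 < p →
    (∀ (a a' : ℕ) (ξ ξ' : ℤ) (u : G → ℂ), a ≤ a' → (p : ℤ) ^ a ∣ ξ' - ξ →
      Cls p d m τ a' ξ' u → Cls p d m τ a ξ u) ∧
    (∀ (a : ℕ) (ξ : ℤ) (s : Finset ℕ) (u : ℕ → G → ℂ), (∀ i ∈ s, Cls p d m τ a ξ (u i)) →
      Cls p d m τ a ξ (fun g => ∑ i ∈ s, u i g)) ∧
    (∀ (a : ℕ) (ξ : ℤ) (φ : ℝ → ℂ) (u : G → ℂ), Cls p d m τ a ξ u →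
      Cls p d m τ a ξ (fun g => φ ‖u g‖ * u g)) ∧
    (∀ (a : ℕ) (ξ : ℤ) (lam : ℝ) (u : G → ℂ), Cls p d m τ a ξ u →
      Cls p d m τ a ξ (fun g => cut lam (u g))) ∧
    (∀ (a b : ℕ) (ξ : ℤ) (Q : ℤ[X]) (u : G → ℂ), b ≤ a → b ≤ m → Q.natDegree ≤ d →
      Cls p d m τ a ξ u → ∀ g : G,
        u (g + τ (C ((p : ℤ) ^ (m - b)) * Q)) = ee (p ^ b) (Q.eval ξ) * u g)

/-- SB: a class function is a class function of the rescaled system of a block containing it. -/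
def T_SB : Prop :=
  ∀ (p d m a c : ℕ) (G : Type) [AddCommGroup G] (τ : ℤ[X] →+ G) (ξ ζ : ℤ) (u : G → ℂ), 1 < p →
    d * a ≤ m → Cls p d m τ (a + c) (ξ + (p : ℤ) ^ a * ζ) u →
      Cls p d (m - d * a) (τ.comp (lft p d a ξ)) c ζ u

/-- RS: sums over residues. -/
def T_RS : Prop :=
  ∀ (p a b : ℕ), 1 < p →
    (∀ (E : Type) [AddCommMonoid E] (F : ℕ → E),
      ∑ x ∈ range (p ^ (a + b)), F x =
        ∑ ξ ∈ range (p ^ a), ∑ z ∈ range (p ^ b), F (ξ + p ^ a * z)) ∧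
    (∀ ξ z : ℕ, ξ < p ^ a → z < p ^ b → ξ + p ^ a * z < p ^ (a + b)) ∧
    (∀ x y : ℕ, x < p ^ a → y < p ^ a → (p : ℤ) ^ a ∣ (x : ℤ) - (y : ℤ) → x = y) ∧
    (1 ≤ a → ∀ (E : Type) [AddCommMonoid E] (F : ℕ → E) (c : ℕ),
      ∑ x ∈ (range (p ^ (a + b))).filter (fun x => x % p = c), F x =
        ∑ ξ ∈ (range (p ^ a)).filter (fun ξ => ξ % p = c), ∑ z ∈ range (p ^ b),
          F (ξ + p ^ a * z)) ∧
    (1 ≤ a → ∀ (E : Type) [AddCommMonoid E] (F : ℕ → E),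
      ∑ x ∈ range (p ^ a), F x =
        ∑ c ∈ range p, ∑ x ∈ (range (p ^ a)).filter (fun x => x % p = c), F x)

/-- FB: the family of a block. -/
def T_FB : Prop :=
  ∀ (p d n i : ℕ) (G : Type) [AddCommGroup G] [Fintype G] (τ : ℤ[X] →+ G) (f : ℕ → G → ℂ),
    1 < p → i ≤ n →
      (Fam p d n τ f → ∀ ξ : ℕ, ξ < p ^ (n - i) →
        Fam p d i (τ.comp (lft p d (n - i) (ξ : ℤ))) (fun z => f (ξ + p ^ (n - i) * z))) ∧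
      (Bd p n f → ∀ ξ : ℕ, ξ < p ^ (n - i) → Bd p i (fun z => f (ξ + p ^ (n - i) * z))) ∧
      (∑ ξ ∈ range (p ^ (n - i)), En p i (fun z => f (ξ + p ^ (n - i) * z)) = En p n f)

/-- L2: weighted orthogonality. -/
def T_L2 : Prop :=
  ∀ (p d m b : ℕ) (G : Type) [AddCommGroup G] [Fintype G] (τ : ℤ[X] →+ G) (S : Finset ℕ)
    (x : ℕ → ℤ) (u : ℕ → G → ℂ) (w : G → ℝ), 1 < p → 1 ≤ d → b ≤ m →
    (∀ i ∈ S, Cls p d m τ b (x i) (u i)) →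
    (∀ i ∈ S, ∀ j ∈ S, i ≠ j → ¬ (p : ℤ) ^ b ∣ x i - x j) →
    (∀ g : G, w (g + τ (C ((p : ℤ) ^ (m - b)) * X)) = w g) →
      ∑ g, w g * ‖∑ i ∈ S, u i g‖ ^ 2 = ∑ i ∈ S, ∑ g, w g * ‖u i g‖ ^ 2

/-- PS: power sums determine tuples in distinct classes. -/
def T_PS : Prop :=
  ∀ (p d a : ℕ) (x y : Fin d → ℤ), p.Prime → d < p → (∀ i, (p : ℤ) ∣ x i - y i) →
    (∀ i j, i ≠ j → ¬ (p : ℤ) ∣ x i - x j) →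
    (∀ j : ℕ, 1 ≤ j → j ≤ d → (p : ℤ) ^ a ∣ ∑ i, x i ^ j - ∑ i, y i ^ j) →
      ∀ i, (p : ℤ) ^ a ∣ x i - y i

/-- KL: `d`-linear orthogonality. -/
def T_KL : Prop :=
  ∀ (p d m a : ℕ) (G : Type) [AddCommGroup G] [Fintype G] (τ : ℤ[X] →+ G) (F : ℕ → G → ℂ)
    (w : G → ℝ) (c : Fin d → ℕ), p.Prime → d < p → 1 ≤ a → a ≤ m →
    (∀ ξ : ℕ, ξ < p ^ a → Cls p d m τ a (ξ : ℤ) (F ξ)) → (∀ i, c i < p) →
    Function.Injective c →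
    (∀ (Q : ℤ[X]) (g : G), Q.natDegree ≤ d → w (g + τ (C ((p : ℤ) ^ (m - a)) * Q)) = w g) →
      ∑ g, w g * ∏ i, ‖clsum p a F (c i) g‖ ^ 2 =
        ∑ g, w g * ∏ i, ∑ ξ ∈ (range (p ^ a)).filter (fun ξ => ξ % p = c i), ‖F ξ g‖ ^ 2

/-- DL: the off-diagonal parts `dlt` under translations. -/
def T_DL : Prop :=
  ∀ (p d m a : ℕ) (G : Type) [AddCommGroup G] (τ : ℤ[X] →+ G) (F : ℕ → G → ℂ) (ξ : ℕ), 1 < p →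
    1 ≤ d → a + 1 ≤ m →
    (∀ i : ℕ, i < p → Cls p d m τ (a + 1) ((ξ + p ^ a * i : ℕ) : ℤ) (F (ξ + p ^ a * i))) →
    (∀ (P : ℤ[X]) (c : ℤ), P.natDegree ≤ d →
      (∀ y : ℤ, (p : ℤ) ^ m ∣
        P.eval ((ξ : ℤ) + (p : ℤ) ^ a * y) - P.eval (ξ : ℤ) - c * ((p : ℤ) ^ a * y)) →
      ∀ g : G, dlt p a F ξ (g + τ P) = dlt p a F ξ (g + τ (C c * X))) ∧
    (∀ g : G, dlt p a F ξ (g + τ (C ((p : ℤ) ^ (m - a)) * X)) = dlt p a F ξ g) ∧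
    (∀ c r : ℕ, 1 ≤ c → a + c ≤ m → p ∣ r → ∀ g : G,
      slc (p ^ c) (vv p m (a + c) τ) r (dlt p a F ξ) g = 0)

/-- SL: slices. -/
def T_SL : Prop :=
  ∀ (M : ℕ) (G : Type) [AddCommGroup G] (v : G), 0 < M →
    (∀ (r : ℕ) (S : Finset ℕ) (k : ℕ → G → ℂ) (g : G),
      slc M v r (fun g => ∑ i ∈ S, k i g) g = ∑ i ∈ S, slc M v r (k i) g) ∧
    (∀ (r q : ℕ) [Fintype G] (h : G → ℂ), 1 ≤ q → ∑ g, ‖slc M v r h g‖ ^ q ≤ ∑ g, ‖h g‖ ^ q) ∧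
    ∀ h : G → ℂ, (∀ g, h (g + M • v) = h g) →
      (∀ g, ∑ r ∈ range M, slc M v r h g = h g) ∧
      (∀ (r : ℕ) (t : ℤ) (g : G), slc M v r h (g + t • v) = ee M ((r : ℤ) * t) * slc M v r h g)

/-- PQ: the polynomials `P_Q`. -/
def T_PQ : Prop :=
  ∀ (p d m a c s : ℕ) (ξ r' : ℤ) (w : ℕ → ℤ), 1 < p → 2 ≤ d → s + c ≤ a → d * a ≤ m →
    (∀ j : ℕ, 1 ≤ j → j ≤ d → (p : ℤ) ^ m ∣ (j : ℤ) * w j - 1) →
    ∀ Q : ℤ[X], Q.natDegree ≤ d - 1 →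
      (plf p d m (a + c) s ξ r' w Q).natDegree ≤ d ∧
      ∀ z y : ℤ, (p : ℤ) ^ m ∣
        (plf p d m (a + c) s ξ r' w Q).eval (ξ + (p : ℤ) ^ s * z + (p : ℤ) ^ a * y) -
        (plf p d m (a + c) s ξ r' w Q).eval (ξ + (p : ℤ) ^ s * z) -
        (r' * (p : ℤ) ^ (m - (a + c)) * Q.eval z) * ((p : ℤ) ^ a * y)

/-- CI: the slices over the sub-blocks of a block form a family of degree `d - 1`. -/
def T_CI : Prop :=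
  ∀ (p d m a b s r : ℕ) (G : Type) [AddCommGroup G] (τ : ℤ[X] →+ G) (F : ℕ → G → ℂ) (J : ℕ),
    p.Prime → d < p → 2 ≤ d → 1 ≤ b → s + (d - 1) * b ≤ a → d * (a + 1) ≤ m → ¬ p ∣ r →
    (∀ ξ : ℕ, ξ < p ^ (a + 1) → Cls p d m τ (a + 1) (ξ : ℤ) (F ξ)) → J < p ^ s →
      ∃ τ' : ℤ[X] →+ G,
        Fam p (d - 1) b τ' (fun ζ => cs p m a ((d - 1) * b) τ F r (s + b) (J + p ^ s * ζ))

/-- CS: one step of the cone decoupling. -/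
def T_CS : Prop :=
  ∀ (p d m a b s r : ℕ) (D : ℝ) (G : Type) [AddCommGroup G] [Fintype G] (τ : ℤ[X] →+ G)
    (F : ℕ → G → ℂ) (J : ℕ),
    p.Prime → d < p → 2 ≤ d → 1 ≤ b → s + (d - 1) * b ≤ a → d * (a + 1) ≤ m → ¬ p ∣ r →
    (∀ ξ : ℕ, ξ < p ^ (a + 1) → Cls p d m τ (a + 1) (ξ : ℤ) (F ξ)) → J < p ^ s →
    Flat p (d - 1) b D →
      ∑ g, ‖cs p m a ((d - 1) * b) τ F r s J g‖ ^ (2 * KK (d - 1)) ≤
        D * (p : ℝ) ^ (b * (KK (d - 1) - 1)) * ∑ ζ ∈ range (p ^ b),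
          ∑ g, ‖cs p m a ((d - 1) * b) τ F r (s + b) (J + p ^ s * ζ) g‖ ^ (2 * KK (d - 1))

/-- CT: iteration of the cone decoupling for one slice. -/
def T_CT : Prop :=
  ∀ (p d m a b r : ℕ) (D : ℝ) (G : Type) [AddCommGroup G] [Fintype G] (τ : ℤ[X] →+ G)
    (F : ℕ → G → ℂ),
    p.Prime → d < p → 2 ≤ d → 1 ≤ b → (d - 1) * b ≤ a → d * (a + 1) ≤ m → ¬ p ∣ r → 1 ≤ D →
    (∀ ξ : ℕ, ξ < p ^ (a + 1) → Cls p d m τ (a + 1) (ξ : ℤ) (F ξ)) → Flat p (d - 1) b D →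
      ∑ g, ‖cs p m a ((d - 1) * b) τ F r 0 0 g‖ ^ (2 * KK (d - 1)) ≤
        D ^ (a / b + 1) * (p : ℝ) ^ (a * (KK (d - 1) - 1)) *
          (p : ℝ) ^ ((d - 1) * b * KK (d - 1)) * ∑ ξ ∈ range (p ^ a), ∑ g,
          ‖slc (p ^ ((d - 1) * b)) (vv p m (a + (d - 1) * b) τ) r (dlt p a F ξ) g‖ ^
            (2 * KK (d - 1))

/-- CN: decoupling for the cone. -/
def T_CN : Prop :=
  ∀ (p d m a b : ℕ) (D : ℝ) (G : Type) [AddCommGroup G] [Fintype G] (τ : ℤ[X] →+ G)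
    (F : ℕ → G → ℂ),
    p.Prime → d < p → 2 ≤ d → 1 ≤ b → d * (a + 1) ≤ m → 1 ≤ D →
    (∀ ξ : ℕ, ξ < p ^ (a + 1) → Cls p d m τ (a + 1) (ξ : ℤ) (F ξ)) → Flat p (d - 1) b D →
      ∑ g, ‖∑ ξ ∈ range (p ^ a), dlt p a F ξ g‖ ^ (2 * KK (d - 1)) ≤
        (p : ℝ) ^ (3 * (d - 1) * b * KK (d - 1)) * D ^ (a / b + 1) *
          (p : ℝ) ^ (a * (KK (d - 1) - 1)) *
          ∑ ξ ∈ range (p ^ a), ∑ g, ‖dlt p a F ξ g‖ ^ (2 * KK (d - 1))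

/-- F1: degree one. -/
def T_F1 : Prop := ∀ p n : ℕ, 1 < p → Flat p 1 n 1

/-- L0: level set estimate at scale one, monotonicity. -/
def T_L0 : Prop :=
  ∀ p d : ℕ, 1 < p → 1 ≤ d → Lev p d 0 1 ∧
    (∀ (n : ℕ) (D D' : ℝ), D ≤ D' → Lev p d n D → Lev p d n D') ∧
    (∀ (n : ℕ) (D D' : ℝ), D ≤ D' → Flat p d n D → Flat p d n D')

/-- LM: truncated moments from level sets. -/
def T_LM : Prop :=
  ∀ p d r : ℕ, 1 < p → 1 ≤ d → KK d ≤ r → ∃ C : ℝ, 1 ≤ C ∧ ∀ (n : ℕ) (D lam : ℝ) (G : Type)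
    [AddCommGroup G] [Fintype G] (τ : ℤ[X] →+ G) (f : ℕ → G → ℂ), 1 ≤ D → Lev p d n D →
    1 ≤ lam → Fam p d n τ f → Bd p n f →
      ∑ g, (if ‖∑ x ∈ range (p ^ n), f x g‖ ≤ lam then
          ‖∑ x ∈ range (p ^ n), f x g‖ ^ (2 * r) else 0) ≤
        C * ((n : ℝ) + 1) * D * (p : ℝ) ^ (n * (KK d - 1)) * lam ^ (2 * r - 2 * KK d) *
          En p n f

/-- LF: decoupling from level sets. -/
def T_LF : Prop :=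
  ∀ p d : ℕ, 1 < p → 1 ≤ d → ∃ C : ℕ, 1 ≤ C ∧ ∀ (n : ℕ) (D : ℝ), 1 ≤ D → Lev p d n D →
    Flat p d n ((C : ℝ) * ((n : ℝ) + 1) ^ C * D)

/-- CC: the thresholds. -/
def T_CC : Prop :=
  ∀ p n j : ℕ, 1 < p → 1 ≤ n →
    (j ≤ n → (p : ℝ) ^ n ≤ cc p n j ∧ cc p n j ≤ 3 * (p : ℝ) ^ n) ∧
    cc p n (j + 1) = cc p n j + cc p n j / (n : ℝ) ∧ cc p n 0 = (p : ℝ) ^ n

/-- SQ: pointwise properties of the square functions. -/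
def T_SQ : Prop :=
  ∀ (p n : ℕ) (lam : ℝ) (G : Type) [AddCommGroup G] (f : ℕ → G → ℂ) (g : G), 1 < p →
    (∀ j : ℕ, j < n → sq p n lam f (j + 1) g ≤ p * sq p n lam f j g) ∧
    (Bd p n f → sq p n lam f 0 g ≤ (p : ℝ) ^ n) ∧
    (∀ j : ℕ, j ≤ n →
      ∑ ξ ∈ range (p ^ (n - j)), ‖pt p n lam f j ξ g‖ ^ 2 ≤ sq p n lam f j g) ∧
    (0 ≤ lam → ∀ j ξ : ℕ, ‖pt p n lam f j ξ g‖ ≤ lam) ∧
    (∀ j : ℕ, 0 ≤ sq p n lam f j g)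

/-- PB: the pruned functions are class functions, their energy. -/
def T_PB : Prop :=
  ∀ (p d n : ℕ) (lam : ℝ) (G : Type) [AddCommGroup G] [Fintype G] (τ : ℤ[X] →+ G)
    (f : ℕ → G → ℂ), 1 < p → 1 ≤ d → Fam p d n τ f →
    (∀ j : ℕ, j ≤ n → ∀ ξ : ℕ, ξ < p ^ (n - j) →
      Cls p d (d * n) τ (n - j) (ξ : ℤ) (pr p n lam f j ξ) ∧
      Cls p d (d * n) τ (n - j) (ξ : ℤ) (pt p n lam f j ξ)) ∧
    (∀ j : ℕ, j ≤ n →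
      ∑ ξ ∈ range (p ^ (n - j)), ∑ g, ‖pr p n lam f j ξ g‖ ^ 2 ≤ En p n f) ∧
    (∀ j : ℕ, j ≤ n →
      ∑ ξ ∈ range (p ^ (n - j)), ∑ g, ‖pt p n lam f j ξ g‖ ^ 2 ≤ En p n f)

/-- PI: the high part of the square function. -/
def T_PI : Prop :=
  ∀ (p n j : ℕ) (lam : ℝ) (G : Type) [AddCommGroup G] (f : ℕ → G → ℂ) (g : G), 1 < p → j < n →
    ((sq p n lam f (j + 1) g - ∑ ξ ∈ range (p ^ (n - j)), ‖pt p n lam f j ξ g‖ ^ 2 : ℝ) : ℂ) =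
      ∑ ξ ∈ range (p ^ (n - (j + 1))), dlt p (n - (j + 1)) (pt p n lam f j) ξ g

/-- DD: bound for the off-diagonal parts. -/
def T_DD : Prop :=
  ∀ (p a q : ℕ) (G : Type) [AddCommGroup G] (F : ℕ → G → ℂ) (ξ : ℕ) (g : G), 1 < p →
    ‖dlt p a F ξ g‖ ^ q ≤ (p : ℝ) ^ (2 * q) * ∑ i ∈ range p, ‖F (ξ + p ^ a * i) g‖ ^ (2 * q)

/-- DF: the error of the pruning. -/
def T_DF : Prop :=
  ∀ (p n : ℕ) (lam : ℝ) (G : Type) [AddCommGroup G] (f : ℕ → G → ℂ) (g : G), 1 < p → 1 ≤ lam →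
    Bd p n f →
    (∀ j : ℕ, j ≤ n →
      ‖∑ x ∈ range (p ^ n), f x g - ∑ ξ ∈ range (p ^ (n - j)), pr p n lam f j ξ g‖ ≤
        (∑ i ∈ Ico 1 j, sq p n lam f i g) / lam) ∧
    (∀ j c : ℕ, j < n →
      ‖clsum p n f c g - clsum p (n - j) (pr p n lam f j) c g‖ ≤
        (∑ i ∈ Ico 1 j, sq p n lam f i g) / lam)

/-- UN: comparison of pruned and unpruned functions. -/
def T_UN : Prop :=
  ∀ (p n q : ℕ) (lam : ℝ) (G : Type) [AddCommGroup G] (f : ℕ → G → ℂ) (g : G), 1 < p →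
    1 ≤ lam → 1 ≤ q → Bd p n f → ∀ j ξ : ℕ, j ≤ n → ξ < p ^ (n - j) →
      ‖pt p n lam f j ξ g‖ ^ (2 * q) ≤
        (if ‖blk p n f j ξ g‖ ≤ lam then ‖blk p n f j ξ g‖ ^ (2 * q) else 0) +
        lam ^ (2 * q) * ∑ i ∈ Icc 1 j, ∑ z ∈ range (p ^ (j - i)),
          (if lam ≤ ‖blk p n f i (ξ + p ^ (n - j) * z) g‖ then 1 else 0)

/-- B2: moment of the pruned functions from the level set estimates of the blocks. -/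
def T_B2 : Prop :=
  ∀ p d q : ℕ, 1 < p → 1 ≤ d → KK d ≤ q → ∃ C : ℝ, 1 ≤ C ∧ ∀ (n j : ℕ) (D lam : ℝ) (G : Type)
    [AddCommGroup G] [Fintype G] (τ : ℤ[X] →+ G) (f : ℕ → G → ℂ), 1 ≤ D → 1 ≤ lam → j ≤ n →
    (∀ i : ℕ, i ≤ j → Lev p d i D) → Fam p d n τ f → Bd p n f →
      ∑ ξ ∈ range (p ^ (n - j)), ∑ g, ‖pt p n lam f j ξ g‖ ^ (2 * q) ≤
        C * ((n : ℝ) + 1) * D * (p : ℝ) ^ (j * (KK d - 1)) * lam ^ (2 * q - 2 * KK d) *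
          En p n f

/-- OM: the first scale of growth. -/
def T_OM : Prop :=
  ∀ (p n : ℕ) (α B lam : ℝ) (G : Type) [AddCommGroup G] (f : ℕ → G → ℂ) (g : G), 1 < p →
    1 ≤ n → 24 ≤ B → 0 < α → 16 * (p : ℝ) * (p : ℝ) ^ n < α ^ 2 →
    lam = B * (n : ℝ) * (p : ℝ) ^ n / α → Bd p n f → α ≤ ‖∑ x ∈ range (p ^ n), f x g‖ →
      ∃ j : ℕ, 1 ≤ j ∧ j < n ∧ g ∈ Om p n lam f j ∧
        ‖∑ x ∈ range (p ^ n), f x g - ∑ ξ ∈ range (p ^ (n - j)), pr p n lam f j ξ g‖ ≤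
          3 * α / B ∧
        ∀ c : ℕ, ‖clsum p n f c g - clsum p (n - j) (pr p n lam f j) c g‖ ≤ 3 * α / B

/-- BN: broad-narrow alternative. -/
def T_BN : Prop :=
  ∀ (p d : ℕ) (α : ℝ) (y z : ℕ → ℂ), 1 < p → 1 ≤ d → 0 < α → α ≤ ‖∑ c ∈ range p, y c‖ →
    ‖∑ c ∈ range p, y c - ∑ c ∈ range p, z c‖ ≤ α / (8 * d) →
    (∀ c : ℕ, c < p → ‖y c - z c‖ ≤ α / (8 * d)) →
      (∃ c : ℕ, c < p ∧ α / (2 * d) ≤ ‖y c‖) ∨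
      ∃ c : Fin d → ℕ, Function.Injective c ∧ (∀ i, c i < p) ∧ ∀ i, α / (4 * p) ≤ ‖z (c i)‖

/-- NA: the narrow part. -/
def T_NA : Prop :=
  ∀ (p d n : ℕ) (D α : ℝ) (G : Type) [AddCommGroup G] [Fintype G] (τ : ℤ[X] →+ G)
    (f : ℕ → G → ℂ), 1 < p → 1 ≤ d → 1 ≤ n → 0 < α → Lev p d (n - 1) D → Fam p d n τ f →
    Bd p n f →
      cnt {g : G | ∃ c : ℕ, c < p ∧ α / (2 * d) ≤ ‖clsum p n f c g‖} * α ^ (2 * KK d) ≤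
        (2 * (d : ℝ)) ^ (2 * KK d) * D * (p : ℝ) ^ ((n - 1) * (KK d - 1)) * En p n f

/-- BR: the broad part. -/
def T_BR : Prop :=
  ∀ (p d n j : ℕ) (lam α : ℝ) (G : Type) [AddCommGroup G] [Fintype G] (τ : ℤ[X] →+ G)
    (f : ℕ → G → ℂ), p.Prime → d < p → 1 ≤ d → 1 ≤ j → j < n → 0 < α → Fam p d n τ f →
    Bd p n f →
      cnt {g : G | g ∈ Om p n lam f j ∧ ∃ c : Fin d → ℕ, Function.Injective c ∧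
          (∀ i, c i < p) ∧ ∀ i, α / (4 * p) ≤ ‖clsum p (n - j) (pr p n lam f j) (c i) g‖} *
          α ^ (2 * d) ≤
        (p : ℝ) ^ d * (4 * (p : ℝ)) ^ (2 * d) * (3 * (p : ℝ) * (p : ℝ) ^ n) ^ d *
          cnt (Om p n lam f j)

/-- O1: the high part is large on `Om`. -/
def T_O1 : Prop :=
  ∀ (p n j q : ℕ) (lam : ℝ) (G : Type) [AddCommGroup G] [Fintype G] (f : ℕ → G → ℂ), 1 < p →
    1 ≤ j → j ≤ n → Bd p n f →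
      cnt (Om p n lam f j) * ((p : ℝ) ^ n / (n : ℝ)) ^ q ≤
        ∑ g, ‖∑ ξ ∈ range (p ^ (n - j)), dlt p (n - j) (pt p n lam f (j - 1)) ξ g‖ ^ q

/-- O2: bound for `Om` by a moment of the pruned functions. -/
def T_O2 : Prop :=
  ∀ (p d n j b : ℕ) (D lam : ℝ) (G : Type) [AddCommGroup G] [Fintype G] (τ : ℤ[X] →+ G)
    (f : ℕ → G → ℂ), p.Prime → d < p → 2 ≤ d → 1 ≤ j → j ≤ n → 1 ≤ b → 1 ≤ D →
    Flat p (d - 1) b D → Fam p d n τ f → Bd p n f →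
      cnt (Om p n lam f j) * ((p : ℝ) ^ n / (n : ℝ)) ^ (2 * KK (d - 1)) ≤
        (p : ℝ) ^ (3 * (d - 1) * b * KK (d - 1)) * D ^ (n / b + 1) *
          (p : ℝ) ^ ((n - j) * (KK (d - 1) - 1)) * (p : ℝ) ^ (4 * KK (d - 1)) *
          ∑ ξ ∈ range (p ^ (n - (j - 1))), ∑ g,
            ‖pt p n lam f (j - 1) ξ g‖ ^ (2 * (2 * KK (d - 1)))

/-- OP: balancing the two bounds. -/
def T_OP : Prop :=
  ∀ (d : ℕ) (X N lam D S E : ℝ), 2 ≤ d → 0 < X → 0 < N → 0 < lam → 1 ≤ D → 0 ≤ E → 0 ≤ S →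
    S ≤ lam ^ (4 * KK (d - 1) - 2) * E →
    (3 ≤ d → S ≤ D * (X / N) ^ (KK d - 1) * lam ^ (4 * KK (d - 1) - 2 * KK d) * E) →
      N ^ (KK (d - 1) - 1) * S ≤
        D ^ (th d) * lam ^ (2 * KK (d - 1)) * X ^ (KK (d - 1) - 1) * E

/-- OB: the bound for `Om`. -/
def T_OB : Prop :=
  ∀ p d : ℕ, p.Prime → d < p → 2 ≤ d → ∃ C : ℕ, 1 ≤ C ∧ ∀ (n j b : ℕ) (D Dst lam : ℝ)
    (G : Type) [AddCommGroup G] [Fintype G] (τ : ℤ[X] →+ G) (f : ℕ → G → ℂ), 1 ≤ j → j < n →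
    1 ≤ b → 1 ≤ D → 1 ≤ Dst → 1 ≤ lam → Flat p (d - 1) b D →
    (∀ i : ℕ, i < n → Lev p d i Dst) → Fam p d n τ f → Bd p n f →
      cnt (Om p n lam f j) * ((p : ℝ) ^ n) ^ (KK (d - 1) + 1) ≤
        (C : ℝ) * ((n : ℝ) + 1) ^ C * (p : ℝ) ^ (C * b) * D ^ (n / b + 1) * Dst ^ (th d) *
          lam ^ (2 * KK (d - 1)) * En p n f

/-- RC: the recursion. -/
def T_RC : Prop :=
  ∀ p d : ℕ, p.Prime → 16 * d ^ 3 ≤ p → 2 ≤ d → ∃ C : ℕ, 1 ≤ C ∧ ∀ (n b : ℕ) (D Dst : ℝ),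
    1 ≤ n → 1 ≤ b → 1 ≤ D → 1 ≤ Dst → Flat p (d - 1) b D →
    (∀ i : ℕ, i < n → Lev p d i Dst) →
      Lev p d n (Dst / 2 +
        (C : ℝ) * ((n : ℝ) + 1) ^ C * (p : ℝ) ^ (C * b) * D ^ (n / b + 1) * Dst ^ (th d))

/-- SO: solution of the recursion. -/
def T_SO : Prop :=
  ∀ p d : ℕ, p.Prime → 16 * d ^ 3 ≤ p → 2 ≤ d → ∃ C : ℕ, 1 ≤ C ∧ ∀ (n b : ℕ) (D : ℝ),
    1 ≤ b → 1 ≤ D → Flat p (d - 1) b D →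
      Lev p d n (((C : ℝ) * ((n : ℝ) + 1) ^ C * (p : ℝ) ^ (C * b) * D ^ (n / b + 1)) ^ C)

/-- AL: the choice of `b` (pure analysis). -/
def T_AL : Prop :=
  ∀ (C₀ : ℕ) (P C₁ γ : ℝ), 1 ≤ P → 0 ≤ C₁ → 0 ≤ γ → γ < 1 → ∃ C₂ : ℝ, 0 ≤ C₂ ∧
    ∀ n : ℕ, 1 ≤ n → ∃ b : ℕ, 1 ≤ b ∧
      (C₀ : ℝ) * ((n : ℝ) + 1) ^ C₀ * ((C₀ : ℝ) * ((n : ℝ) + 1) ^ C₀ * P ^ (C₀ * b) *
        (Real.exp (C₁ * (b : ℝ) ^ γ * Real.log ((b : ℝ) + 1))) ^ (n / b + 1)) ^ C₀ ≤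
        Real.exp (C₂ * (n : ℝ) ^ (1 / (2 - γ)) * Real.log ((n : ℝ) + 1))

/-- A0: the choice `b = 1` (pure analysis). -/
def T_A0 : Prop :=
  ∀ (C₀ : ℕ) (P : ℝ), 1 ≤ P → ∃ C₂ : ℝ, 0 ≤ C₂ ∧ ∀ n : ℕ, 1 ≤ n →
    (C₀ : ℝ) * ((n : ℝ) + 1) ^ C₀ * ((C₀ : ℝ) * ((n : ℝ) + 1) ^ C₀ * P ^ C₀) ^ C₀ ≤
      Real.exp (C₂ * Real.log ((n : ℝ) + 1))

/-- AS: decoupling in every degree. -/
def T_AS : Prop :=
  ∀ k p : ℕ, 2 ≤ k → p.Prime → 16 * k ^ 3 ≤ p → ∃ C : ℝ, 0 ≤ C ∧ ∀ n : ℕ, 1 ≤ n →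
    Flat p k n (Real.exp (C * (n : ℝ) ^ (((k : ℝ) - 2) / ((k : ℝ) - 1)) *
      Real.log ((n : ℝ) + 1)))

/-- JB: counting solutions. -/
def T_JB : Prop :=
  ∀ (k p n N : ℕ) (D : ℝ), 1 ≤ k → p.Prime → N < p ^ n → 0 ≤ D → Flat p k n D →
    ((sols (KK k) k N).card : ℝ) ≤ D * ((p : ℝ) ^ n) ^ (KK k)

/-- FN: the theorem. -/
def T_FN : Prop :=
  ∀ k : ℕ, 3 ≤ k → ∃ C : ℝ, ∀ N : ℕ, 3 ≤ N →
    ((sols (k * (k + 1) / 2) k N).card : ℝ) ≤ (N : ℝ) ^ (k * (k + 1) / 2) *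
      Real.exp (C * Real.log N ^ (((k : ℝ) - 2) / ((k : ℝ) - 1)) * Real.log (Real.log N))

end Pool.Agent.H11.CV
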