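import Pool.Agent.H11.CV.CI
import Pool.Agent.H11.CV.OB
import Pool.Agent.H11.CV.RC
import Pool.Agent.H54.CV.Small
import Pool.Agent.H36.CV.EX
import Pool.Agent.H36.CV.CB
import Pool.Agent.H36.CV.RS
import Pool.Agent.H36.CV.SB
import Pool.Agent.H36.CV.SQ
import Pool.Agent.H36.CV.NA
import Pool.Agent.H36.CV.PB
import Pool.Agent.H36.CV.AS
import Pool.Agent.H4.CV.B2
import Pool.Agent.H4.CV.OM
import Pool.Agent.H4.CV.JB
import Pool.Agent.H4.CV.FN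
import Pool.Agent.H20.CV.AL
import Pool.Agent.H20.CV.BR
import Pool.Agent.H20.CV.LF
import Pool.Agent.H93.CV.CN
import Pool.Agent.H93.CV.CT
import Pool.Agent.H93.CV.DF
import Pool.Agent.H93.CV.OP
import Pool.Agent.H93.CV.UN
import Pool.Agent.H65.CV.PS
import Pool.Agent.H65.CV.KL
import Pool.Agent.H65.CV.L2
import Pool.Agent.H65.CV.LM
import Pool.Agent.H57.CV.SL
import Pool.Agent.H59.CV.FB
import Pool.Agent.H59.CV.O1
import Pool.Agent.H59.CV.O2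
import Pool.Agent.H59.CV.SO

/-!
# Vinogradov mean values at the critical exponent: assembly (helper11)
-/

set_option autoImplicit false

open Finset Polynomial

namespace Pool.Agent.H11.CV

theorem t_EX : T_EX := Pool.Agent.H36.CV.ex
theorem t_CB : T_CB := Pool.Agent.H36.CV.cb t_EX
theorem t_SB : T_SB := Pool.Agent.H36.CV.sb t_EX
theorem t_RS : T_RS := Pool.Agent.H36.CV.rs
theorem t_FB : T_FB := Pool.Agent.H59.CV.FB.fb t_SB t_RS
theorem t_L2 : T_L2 := Pool.Agent.H65.CV.l2 t_EX t_CB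
theorem t_PS : T_PS := Pool.Agent.H65.CV.ps
theorem t_KL : T_KL := Pool.Agent.H65.CV.kl t_EX t_CB t_RS t_PS
theorem t_DL : T_DL := Pool.Agent.H57.CV.dl t_EX t_CB
theorem t_SL : T_SL := Pool.Agent.H57.CV.sl t_EX
theorem t_PQ : T_PQ := Pool.Agent.H57.CV.pq
theorem t_CI : T_CI := ci t_EX t_DL t_SL t_PQ t_RS
theorem t_CS : T_CS := cs_t t_CI t_RS
theorem t_CT : T_CT := Pool.Agent.H93.CV.ct t_CS t_RS
theorem t_CN : T_CN := Pool.Agent.H93.CV.cn t_CT t_DL t_SL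
theorem t_F1 : T_F1 := f1 t_L2 t_RS
theorem t_L0 : T_L0 := l0
theorem t_LM : T_LM := Pool.Agent.H65.CV.lm t_L2 t_RS
theorem t_LF : T_LF := Pool.Agent.H20.CV.lf t_LM t_CB
theorem t_CC : T_CC := cc_t
theorem t_SQ : T_SQ := Pool.Agent.H36.CV.sqq t_RS
theorem t_PB : T_PB := Pool.Agent.H36.CV.pb t_CB t_L2 t_RS
theorem t_PI : T_PI := pi_t t_RS
theorem t_DD : T_DD := dd
theorem t_DF : T_DF := Pool.Agent.H93.CV.df t_RS
theorem t_UN : T_UN := Pool.Agent.H93.CV.un t_RS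
theorem t_B2 : T_B2 := b2 t_UN t_LM t_FB t_RS
theorem t_OM : T_OM := om t_DF t_SQ t_CC
theorem t_BN : T_BN := bn
theorem t_NA : T_NA := Pool.Agent.H36.CV.na t_FB t_RS
theorem t_BR : T_BR := Pool.Agent.H20.CV.br t_EX t_KL t_PB t_CB t_SQ t_CC
theorem t_O1 : T_O1 := Pool.Agent.H59.CV.O1.o1 t_PI t_SQ t_CC
theorem t_O2 : T_O2 := Pool.Agent.H59.CV.O2.o2 t_O1 t_CN t_PB t_DD t_RS
theorem t_OP : T_OP := Pool.Agent.H93.CV.op
theorem t_OB : T_OB := ob t_O2 t_OP t_B2 t_PB t_SQ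
theorem t_RC : T_RC := rc t_OM t_BN t_NA t_BR t_OB t_RS t_L2
theorem t_SO : T_SO := Pool.Agent.H59.CV.SO.so t_RC t_L0
theorem t_AL : T_AL := Pool.Agent.H20.CV.al
theorem t_A0 : T_A0 := a0
theorem t_AS : T_AS := Pool.Agent.H36.CV.as t_SO t_LF t_F1 t_A0 t_AL t_L0
theorem t_JB : T_JB := jb t_EX
theorem t_FN : T_FN := fn t_AS t_JB

end Pool.Agent.H11.CV
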