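import Pool.Agent.H11.CV.Targets

/-!
# Elementary facts on `KK` and `th` (helper11)
-/

set_option autoImplicit false

open Finset Polynomial

namespace Pool.Agent.H11.CV

theorem KK_succ (d : ℕ) : KK (d + 1) = KK d + (d + 1) := by
  unfold KK
  have : (d + 1) * (d + 1 + 1) = d * (d + 1) + (d + 1) * 2 := by ring
  rw [this, Nat.add_mul_div_right _ _ (by norm_num)]

theorem KK_eq (d : ℕ) (hd : 1 ≤ d) : KK d = KK (d - 1) + d := by
  obtain ⟨e, rfl⟩ : ∃ e, d = e + 1 := ⟨d - 1, by omega⟩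
  simpa using KK_succ e

theorem KK_pos (d : ℕ) (hd : 1 ≤ d) : 1 ≤ KK d := by
  rw [KK_eq d hd]; omega

theorem KK_two_mul (d : ℕ) : 2 * KK d = d * (d + 1) := by
  unfold KK
  exact Nat.mul_div_cancel' (Nat.even_mul_succ_self d).two_dvd

theorem KK_ge_three (d : ℕ) (hd : 2 ≤ d) : 3 ≤ KK d := by
  have h1 := KK_eq d (by omega)
  have h2 := KK_pos (d - 1) (by omega)
  omega

/-- `KK d ≤ 2 KK (d - 1)` for `d ≥ 3` -/
theorem KK_le_two (d : ℕ) (hd : 3 ≤ d) : KK d ≤ 2 * KK (d - 1) := by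
  have h1 := KK_eq d (by omega)
  have h2 := KK_two_mul (d - 1)
  have h3 : d - 1 + 1 = d := by omega
  rw [h3] at h2
  have h4 : 2 * d ≤ (d - 1) * d := Nat.mul_le_mul_right d (by omega)
  omega

theorem th_nonneg (d : ℕ) (hd : 2 ≤ d) : 0 ≤ th d := by
  unfold th
  have h1 : (1 : ℝ) ≤ KK (d - 1) := by exact_mod_cast KK_pos (d - 1) (by omega)
  have h2 : (3 : ℝ) ≤ KK d := by exact_mod_cast KK_ge_three d hd
  exact div_nonneg (by linarith) (by linarith)

theorem th_lt_one (d : ℕ) (hd : 2 ≤ d) : th d < 1 := by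
  unfold th
  have h2 : (3 : ℝ) ≤ KK d := by exact_mod_cast KK_ge_three d hd
  have h3 : (KK d : ℝ) = KK (d - 1) + d := by exact_mod_cast KK_eq d (by omega)
  have h4 : (2 : ℝ) ≤ d := by exact_mod_cast hd
  rw [div_lt_one (by linarith)]
  linarith

end Pool.Agent.H11.CV
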